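import Pool.Agent.H33.HH.TC
import Pool.Agent.H96.CV.Basic
import Pool.Agent.H19.CV.CZ

/-!
# Row RPT: the terms with the difference
-/

set_option autoImplicit false

open NumberField Complex Filter Topology MeasureTheory
open scoped ContDiff nonZeroDivisors Classical

namespace Pool.Agent.H2.HH

open Pool.Agent.H33.HH Pool.Agent.H28.RC Pool.Agent.H37.CV
open Pool.Agent.H96.CV (one_le_nm nm_pos two_le_np np_pos nS_pos one_le_nS)

noncomputable section

section

variable {K : Type} [Field K] [NumberField K]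

theorem fin_nm (Y : ℝ) : {I : Ideal (𝓞 K) | nm I ≤ Y}.Finite := by
  refine (Ideal.finite_setOfPred_absNorm_le (S := 𝓞 K) ⌊Y⌋₊).subset ?_
  intro I hI
  simp only [Set.mem_ofPred_eq, nm] at hI ⊢
  exact Nat.le_floor hI

variable (K) in
/-- the ideals prime to the small primes of norm at most `Y` -/
def XS (P Y : ℝ) : Finset (Ideal (𝓞 K)) :=
  ((fin_nm (K := K) Y).subset (t := {I | I ≠ ⊥ ∧ Cp P I ∧ nm I ≤ Y}) (fun _ h => h.2.2)).toFinset

theorem mem_XS {P Y : ℝ} {I : Ideal (𝓞 K)} : I ∈ XS K P Y ↔ I ≠ ⊥ ∧ Cp P I ∧ nm I ≤ Y := by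
  simp [XS]

theorem sumC_eq (P Y : ℝ) (f : Ideal (𝓞 K) → ℝ) (h : ∀ I, Y < nm I → f I = 0) :
    sumC P f = ∑ I ∈ XS K P Y, f I := by
  have h1 : sumC P f = ∑' I : {I : Ideal (𝓞 K) | I ≠ ⊥}, (if Cp P I.1 then f I.1 else 0) := rfl
  rw [h1, tsum_subtype {I : Ideal (𝓞 K) | I ≠ ⊥} (fun I => if Cp P I then f I else 0),
    tsum_eq_sum (s := XS K P Y)]
  · refine Finset.sum_congr rfl fun I hI => ?_
    obtain ⟨h1, h2, h3⟩ := mem_XS.1 hI
    rw [Set.indicator_of_mem (by exact h1), if_pos h2]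
  · intro I hI
    by_cases h1 : I ≠ ⊥
    · rw [Set.indicator_of_mem (by exact h1)]
      by_cases h2 : Cp P I
      · rw [if_pos h2]
        apply h
        by_contra h3
        exact hI (mem_XS.2 ⟨h1, h2, not_lt.1 h3⟩)
      · rw [if_neg h2]
    · rw [Set.indicator_of_notMem (by exact h1)]

theorem Cp_mul {P : ℝ} {I J : Ideal (𝓞 K)} (hI : Cp P I) (hJ : Cp P J) : Cp P (I * J) := by
  intro p hp
  rcases (Ideal.IsPrime.mul_le p.2.1).1 hp with h | h
  · exact hI p h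
  · exact hJ p h

theorem Cp_of_mul {P : ℝ} {I J : Ideal (𝓞 K)} (h : Cp P (I * J)) : Cp P J := by
  intro p hp
  exact h p (le_trans Ideal.mul_le_right hp)

theorem nm_mul (I J : Ideal (𝓞 K)) : nm (I * J) = nm I * nm J := by
  unfold nm
  rw [map_mul]
  push_cast
  ring

/-- the exchange of the sums -/
theorem inner_sum (P Y : ℝ) {a b n : Ideal (𝓞 K)} (ha : a ≠ ⊥) (hb : b ≠ ⊥) (hbC : Cp P b)
    (hn : n ≠ ⊥) (hnC : Cp P n) (F : ℝ → ℝ) (hF : ∀ u, Y < u → F u = 0) :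
    (∑ m ∈ XS K P Y, if a * m = b * n then F (nm m) else 0) =
      if a ∣ b * n then F (nm b * nm n / nm a) else 0 := by
  by_cases h : a ∣ b * n
  · rw [if_pos h]
    obtain ⟨m0, hm0⟩ := h
    have h1 : ∀ m, a * m = b * n ↔ m = m0 := by
      intro m
      rw [hm0]
      constructor
      · intro h
        exact mul_left_cancel₀ (by simpa using ha) h
      · rintro rfl
        rfl
    have hbn : b * n ≠ ⊥ := by
      have := mul_ne_zero (by simpa using hb : b ≠ 0) (by simpa using hn : n ≠ 0)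
      simpa using this
    have hm : m0 ≠ ⊥ := by
      rintro rfl
      apply hbn
      rw [hm0]
      simp
    have hmC : Cp P m0 := by
      apply Cp_of_mul (I := a)
      rw [← hm0]
      exact Cp_mul hbC hnC
    have hnm : nm b * nm n / nm a = nm m0 := by
      rw [← nm_mul, hm0, nm_mul]
      field_simp [(nm_pos ha).ne']
    rw [hnm]
    simp_rw [h1]
    rw [Finset.sum_ite_eq']
    by_cases h2 : m0 ∈ XS K P Y
    · rw [if_pos h2]
    · rw [if_neg h2, hF]
      by_contra h3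
      exact h2 (mem_XS.2 ⟨hm, hmC, not_lt.1 h3⟩)
  · rw [if_neg h]
    refine Finset.sum_eq_zero fun m _ => ?_
    rw [if_neg]
    intro h1
    exact h ⟨m, h1.symm⟩

end

theorem term_id (sdv wuv hcv W1v pi Q nS nk nb nn r G1 G2 h K0v : ℝ) (h1 : sdv ≠ 0)
    (h2 : wuv ≠ 0) (h3 : hcv ≠ 0) (h4 : W1v ≠ 0) (h5 : pi ≠ 0) (h6 : Q ≠ 0) (h7 : nS ≠ 0)
    (h8 : nk ≠ 0) (h9 : nb ≠ 0) (h10 : nn ≠ 0) (h11 : r ≠ 0) :
    2 / sdv * (1 / (nS * nk)) * (G1 * (h * (Q / r) * (G2 * K0v))) =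
      1 / 2 * (2 * pi * hcv / (wuv * sdv)) * W1v * Q ^ 2 * (1 / (nS * nb)) *
        (1 / nn * (G1 * G2) * (h * ((1 + 2 * (nb * nn / (nk * r * Q)) / pi *
          (wuv / (hcv * W1v)) * K0v) - 1))) := by
  rw [add_sub_cancel_left]
  field_simp

theorem bound_G {G : ℝ → ℝ} (hG : IsG G) : ∃ M : ℝ, 1 ≤ M ∧ ∀ u, |G u| ≤ M := by
  obtain ⟨C, hC⟩ := isCompact_Icc.exists_bound_of_continuousOn
    (hG.smooth.continuous.continuousOn (s := Set.Icc (1 : ℝ) 3))
  refine ⟨max C 1, le_max_right _ _, fun u => ?_⟩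
  by_cases h1 : u ≤ 1
  · rw [hG.low u h1, abs_one]
    exact le_max_right _ _
  · by_cases h2 : 3 ≤ u
    · rw [hG.high u h2, abs_zero]
      exact le_trans zero_le_one (le_max_right _ _)
    · exact le_trans (hC u ⟨by linarith, by linarith⟩) (le_max_left _ _)

/-- the number of units is positive -/
theorem wu_pos (K : Type) [Field K] [NumberField K] [IQ K] : 0 < wu K := by
  have h1 := NumberField.sign_discr K
  have h2 := NumberField.InfinitePlace.card_add_two_mul_card_eq_rank K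
  rw [IQ.two (K := K)] at h2
  have h3 : (discr K).sign = -1 := Int.sign_eq_neg_one_of_neg IQ.neg
  rw [h3] at h1
  have h4 : InfinitePlace.nrComplexPlaces K = 1 := by
    have h5 : InfinitePlace.nrComplexPlaces K = 0 ∨ InfinitePlace.nrComplexPlaces K = 1 := by omega
    rcases h5 with h5 | h5
    · rw [h5] at h1
      norm_num at h1
    · exact h5
  have h5 : InfinitePlace.nrRealPlaces K = 0 := by omega
  have h6 : NumberField.Units.rank K = 0 := by
    unfold NumberField.Units.rank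
    rw [InfinitePlace.card_eq_nrRealPlaces_add_nrComplexPlaces, h4, h5]
  have h7 : Finite (𝓞 K)ˣ := by
    have : IsEmpty (Fin (NumberField.Units.rank K)) := by
      rw [h6]
      infer_instance
    refine Finite.of_surjective (fun x : NumberField.Units.torsion K => (x : (𝓞 K)ˣ)) fun u => ?_
    obtain ⟨⟨x, e⟩, hxu, -⟩ := NumberField.Units.exist_unique_eq_mul_prod K u
    refine ⟨x, ?_⟩
    rw [hxu]
    simp
  unfold wu
  exact_mod_cast Nat.card_pos

/-- the double sum -/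
theorem double_sum {K : Type} [Field K] [NumberField K] {P Z : ℝ} (hZ : 0 < Z) {G : ℝ → ℝ}
    (hG : IsG G) {S T : Finset (PrI K)} (ha : idS S ≠ ⊥) (hb : idS T ≠ ⊥) (hbC : Cp P (idS T))
    (hnm : nm (idS S) = nS np S) :
    (sumC P fun m => sumC P fun n => if idS S * m = idS T * n then (nS np T * nm n)⁻¹ *
      (G (nm m / Z) * G (nm n / Z)) else 0) =
    ∑ n ∈ XS K P (3 * Z), if idS S ∣ idS T * n then (nS np T * nm n)⁻¹ *
      (G (nm (idS T) * nm n / (nS np S * Z)) * G (nm n / Z)) else 0 := by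
  have hGY : ∀ v, 3 * Z < v → G (v / Z) = 0 := fun v hv =>
    hG.high _ (by rw [le_div_iff₀ hZ]; exact hv.le)
  have hin : ∀ m : Ideal (𝓞 K), (sumC P fun n => if idS S * m = idS T * n then
      (nS np T * nm n)⁻¹ * (G (nm m / Z) * G (nm n / Z)) else 0) =
      ∑ n ∈ XS K P (3 * Z), if idS S * m = idS T * n then
      (nS np T * nm n)⁻¹ * (G (nm m / Z) * G (nm n / Z)) else 0 := by
    intro m
    refine sumC_eq P (3 * Z) _ fun n hn => ?_
    simp only [hGY _ hn, mul_zero, ite_self]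
  rw [show (fun m : Ideal (𝓞 K) => sumC P fun n => if idS S * m = idS T * n then
      (nS np T * nm n)⁻¹ * (G (nm m / Z) * G (nm n / Z)) else 0) = fun m =>
      ∑ n ∈ XS K P (3 * Z), if idS S * m = idS T * n then
      (nS np T * nm n)⁻¹ * (G (nm m / Z) * G (nm n / Z)) else 0 from funext hin,
    sumC_eq P (3 * Z) _ ?_, Finset.sum_comm]
  · refine Finset.sum_congr rfl fun n hn => ?_
    obtain ⟨n0, nC, -⟩ := mem_XS.1 hn
    rw [inner_sum P (3 * Z) ha hb hbC n0 nC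
      (fun v => (nS np T * nm n)⁻¹ * (G (v / Z) * G (nm n / Z))) ?_]
    · rw [hnm, div_div]
    · intro v hv
      rw [hGY v hv, zero_mul, mul_zero]
  · intro m hm
    refine Finset.sum_eq_zero fun n _ => ?_
    simp only [hGY _ hm, zero_mul, mul_zero, ite_self]

theorem pf_RPT (h1 : T_KXT) (h2 : T_HAB) (h3 : T_HSU) (h4 : T_IDF) : T_RPT := by
  intro K _ _ _ P W G H k θ e hW hW1 hG hH hk0 hPar
  obtain ⟨C, hC0, hC⟩ := h1 K W G H hW hG hH
  have he := hPar.epos
  have hθ := hPar.θpos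
  have hle := hPar.le
  obtain ⟨CH, hCH0, hCH⟩ := h2 K P θ (e / 4) hθ (by linarith)
  obtain ⟨M, hM1, hM⟩ := bound_G hG
  have hknm := nm_pos hk0.1
  have hsd0 : sd K ≠ 0 := by
    unfold sd
    refine Real.sqrt_ne_zero'.2 (abs_pos.2 ?_)
    exact_mod_cast discr_ne_zero K
  have hsd : 0 < sd K := lt_of_le_of_ne (Real.sqrt_nonneg _) hsd0.symm
  have hwu := wu_pos K
  have hhc : 0 < hc K := by
    unfold hc
    have : 0 < classNumber K := Fintype.card_pos
    exact_mod_cast this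
  obtain ⟨U, hU⟩ : ∃ U : ℝ, U = nm k * nS np (SP K P) := ⟨_, rfl⟩
  have hUpos : 0 < U := by
    rw [hU]
    exact mul_pos hknm (nS_pos _)
  refine ⟨e / 4, 2 / sd K * M * C * U ^ (1 / 2 : ℝ) * ((SP K P).powerset.card : ℝ) * CH,
    max 3 (U ^ (1 / e)), by linarith, by positivity, le_trans (by norm_num) (le_max_left _ _), ?_⟩
  intro Q hQ S hS T hT
  have hQ3 : 3 ≤ Q := le_trans (le_max_left _ _) hQ
  have hQ1 : 1 ≤ Q := by linarith
  have hQ0 : 0 < Q := by linarith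
  have hQU : U ≤ Q ^ e := by
    have h := Real.rpow_le_rpow (Real.rpow_nonneg hUpos.le _) (le_trans (le_max_right _ _) hQ) he.le
    rwa [← Real.rpow_mul hUpos.le, one_div_mul_cancel he.ne', Real.rpow_one] at h
  obtain ⟨Z, hZ⟩ : ∃ Z : ℝ, Z = Q ^ (1 + e) := ⟨_, rfl⟩
  have hZ0 : 0 < Z := by
    rw [hZ]
    positivity
  obtain ⟨u, hu⟩ : ∃ u : ℝ, u = U * Q ^ (-e) := ⟨_, rfl⟩
  have hu0 : 0 < u := by
    rw [hu]
    positivity
  have hu1 : u ≤ 1 := by
    rw [hu, Real.rpow_neg hQ0.le, ← div_eq_mul_inv, div_le_one (by positivity)]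
    exact hQU
  have hy : 1 ≤ Q ^ θ := Real.one_le_rpow hQ1 hθ.le
  obtain ⟨a0, aC, anm, aS1, aSy, -, -, -⟩ := h4 K P (Q ^ θ) hy S hS
  obtain ⟨b0, bC, bnm, bS1, -, -, -, -⟩ := h4 K P (Q ^ θ) hy T hT
  rw [← hZ, double_sum hZ0 hG a0 b0 bC anm]
  have hGY : ∀ v, 3 * Z < v → G (v / Z) = 0 := fun v hv =>
    hG.high _ (by rw [le_div_iff₀ hZ0]; exact hv.le)
  have hS0 := nS_pos S
  have hT0 := nS_pos T
  have hN : Nab P Z Q G k S (idS T) (fun x t => Kx K W G H x t) =
      2 / sd K * (1 / (nS np S * nm k)) * ∑ n ∈ XS K P (3 * Z), G (nm n / Z) *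
      ∑ R₁ ∈ S.powerset, ∑ R₀ ∈ (SP K P).powerset, ha R₁ (idS T * n) * hk P k R₀ *
      (Q / (nS np R₁ * nS np R₀)) *
      Kx K W G H (nm (idS T) * nm n / (nm k * (nS np R₁ * nS np R₀) * Q))
        (nm (idS T) * nm n / (nS np S * Z)) := by
    unfold Nab
    rw [sumC_eq P (3 * Z)]
    intro I hI
    rw [hGY _ hI, zero_mul]
  have hE : Eab P Z Q W G H k S (idS T) =
      1 / 2 * rh K * W1 W * Q ^ 2 * (1 / (nS np S * nm (idS T))) * ∑ n ∈ XS K P (3 * Z),
      1 / nm n * (G (nm n / Z) * G (nm (idS T) * nm n / (nS np S * Z))) *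
      ∑ R₁ ∈ S.powerset, ∑ R₀ ∈ (SP K P).powerset, ha R₁ (idS T * n) * hk P k R₀ *
      ps K W H (nm (idS T) * nm n / (nm k * (nS np R₁ * nS np R₀) * Q)) := by
    unfold Eab
    rw [sumC_eq P (3 * Z)]
    intro I hI
    rw [hGY _ hI, zero_mul, mul_zero, zero_mul]
  -- the identity for one `n`
  have hid : ∀ n ∈ XS K P (3 * Z),
      2 / sd K * (1 / (nS np S * nm k)) * (G (nm n / Z) *
        ∑ R₁ ∈ S.powerset, ∑ R₀ ∈ (SP K P).powerset, ha R₁ (idS T * n) * hk P k R₀ *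
        (Q / (nS np R₁ * nS np R₀)) *
        (G (nm (idS T) * nm n / (nS np S * Z)) *
          K0 K W H (nm (idS T) * nm n / (nm k * (nS np R₁ * nS np R₀) * Q)))) =
      1 / 2 * rh K * W1 W * Q ^ 2 * (1 / (nS np S * nm (idS T))) * (1 / nm n * (G (nm n / Z) *
        G (nm (idS T) * nm n / (nS np S * Z))) *
        ∑ R₁ ∈ S.powerset, ∑ R₀ ∈ (SP K P).powerset, ha R₁ (idS T * n) * hk P k R₀ *
        ps K W H (nm (idS T) * nm n / (nm k * (nS np R₁ * nS np R₀) * Q))) -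
      1 / 2 * rk K P * W1 W * Q ^ 2 * (if idS S ∣ idS T * n then (nS np T * nm n)⁻¹ *
        (G (nm (idS T) * nm n / (nS np S * Z)) * G (nm n / Z)) else 0) := by
    intro n hn
    obtain ⟨n0, nC, -⟩ := mem_XS.1 hn
    have hn0 := nm_pos n0
    have hbn : idS T * n ≠ ⊥ := by
      have := mul_ne_zero (by simpa using b0 : idS T ≠ 0) (by simpa using n0 : n ≠ 0)
      simpa using this
    obtain ⟨hs1, hs2, -, -⟩ := h3 K P (Q ^ θ) hy S hS (idS T * n) k hbn (Cp_mul bC nC) hk0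
    have e1 : 2 / sd K * (1 / (nS np S * nm k)) * (G (nm n / Z) *
        ∑ R₁ ∈ S.powerset, ∑ R₀ ∈ (SP K P).powerset, ha R₁ (idS T * n) * hk P k R₀ *
        (Q / (nS np R₁ * nS np R₀)) *
        (G (nm (idS T) * nm n / (nS np S * Z)) *
          K0 K W H (nm (idS T) * nm n / (nm k * (nS np R₁ * nS np R₀) * Q)))) =
        1 / 2 * rh K * W1 W * Q ^ 2 * (1 / (nS np S * nm (idS T))) * (1 / nm n * (G (nm n / Z) *
        G (nm (idS T) * nm n / (nS np S * Z))) *
        (∑ R₁ ∈ S.powerset, ∑ R₀ ∈ (SP K P).powerset, ha R₁ (idS T * n) * hk P k R₀ *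
        ps K W H (nm (idS T) * nm n / (nm k * (nS np R₁ * nS np R₀) * Q)) -
        ∑ R₁ ∈ S.powerset, ∑ R₀ ∈ (SP K P).powerset, ha R₁ (idS T * n) * hk P k R₀)) := by
      rw [← Finset.sum_sub_distrib]
      simp_rw [← Finset.sum_sub_distrib, Finset.mul_sum]
      refine Finset.sum_congr rfl fun R₁ _ => Finset.sum_congr rfl fun R₀ _ => ?_
      have hr : nS np R₁ * nS np R₀ ≠ 0 := (mul_pos (nS_pos _) (nS_pos _)).ne'
      have := term_id (sd K) (wu K) (hc K) (W1 W) Real.pi Q (nS np S) (nm k) (nm (idS T)) (nm n)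
        (nS np R₁ * nS np R₀) (G (nm n / Z)) (G (nm (idS T) * nm n / (nS np S * Z)))
        (ha R₁ (idS T * n) * hk P k R₀)
        (K0 K W H (nm (idS T) * nm n / (nm k * (nS np R₁ * nS np R₀) * Q)))
        hsd0 hwu.ne' hhc.ne' hW1.ne' Real.pi_ne_zero hQ0.ne' hS0.ne' hknm.ne'
        (nm_pos b0).ne' hn0.ne' hr
      rw [this]
      unfold Pool.Agent.H33.HH.ps rh
      ring
    rw [e1]
    simp_rw [← Finset.mul_sum, hs2]
    rw [← Finset.sum_mul, hs1]
    unfold rk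
    rw [bnm]
    split_ifs
    · field_simp
    · ring
  have hmain : Nab P Z Q G k S (idS T) (fun x t => Kx K W G H x t) -
      (Eab P Z Q W G H k S (idS T) - 1 / 2 * rk K P * W1 W * Q ^ 2 *
        ∑ n ∈ XS K P (3 * Z), if idS S ∣ idS T * n then (nS np T * nm n)⁻¹ *
        (G (nm (idS T) * nm n / (nS np S * Z)) * G (nm n / Z)) else 0) =
      ∑ n ∈ XS K P (3 * Z), 2 / sd K * (1 / (nS np S * nm k)) * (G (nm n / Z) *
      ∑ R₁ ∈ S.powerset, ∑ R₀ ∈ (SP K P).powerset, ha R₁ (idS T * n) * hk P k R₀ *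
      (Q / (nS np R₁ * nS np R₀)) *
      (Kx K W G H (nm (idS T) * nm n / (nm k * (nS np R₁ * nS np R₀) * Q))
        (nm (idS T) * nm n / (nS np S * Z)) - G (nm (idS T) * nm n / (nS np S * Z)) *
          K0 K W H (nm (idS T) * nm n / (nm k * (nS np R₁ * nS np R₀) * Q)))) := by
    rw [hN, hE, Finset.mul_sum, Finset.mul_sum, Finset.mul_sum, ← Finset.sum_sub_distrib,
      ← Finset.sum_congr rfl hid, ← Finset.sum_sub_distrib]
    refine Finset.sum_congr rfl fun n _ => ?_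
    rw [← mul_sub, ← mul_sub, ← Finset.sum_sub_distrib]
    simp_rw [← Finset.sum_sub_distrib, ← mul_sub]
  rw [hmain]
  -- the bound
  have hZQ : Z = Q * Q ^ e := by
    rw [hZ, Real.rpow_add hQ0, Real.rpow_one]
  have hu' : u = nm k * nS np (SP K P) * (Q / Z) := by
    rw [hu, hU, hZQ, Real.rpow_neg hQ0.le]
    have : Q ^ e ≠ 0 := (Real.rpow_pos_of_pos hQ0 e).ne'
    field_simp
  have hX : ∑ n ∈ XS K P (3 * Z), (nm n)⁻¹ * ∑ R ∈ S.powerset, |ha R (idS T * n)| ≤
      CH * Q ^ (e / 4) * nS np (S ∩ T) := by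
    refine hCH Q hQ1 S hS T hT (3 * Z) ?_ ?_ _ fun n hn => ?_
    · have : 1 ≤ Z := by
        rw [hZ]
        exact Real.one_le_rpow hQ1 (by linarith)
      linarith
    · have h1 : Z ≤ Q ^ 2 := by
        rw [hZ, ← Real.rpow_natCast]
        exact Real.rpow_le_rpow_of_exponent_le hQ1 (by push_cast; linarith)
      calc 3 * Z ≤ Q * Q ^ 2 := mul_le_mul hQ3 h1 hZ0.le hQ0.le
        _ = Q ^ 3 := by ring
    · obtain ⟨h1, -, h2⟩ := mem_XS.1 hn
      exact ⟨h1, h2⟩
  have hterm : ∀ n ∈ XS K P (3 * Z), |2 / sd K * (1 / (nS np S * nm k)) * (G (nm n / Z) *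
      ∑ R₁ ∈ S.powerset, ∑ R₀ ∈ (SP K P).powerset, ha R₁ (idS T * n) * hk P k R₀ *
      (Q / (nS np R₁ * nS np R₀)) *
      (Kx K W G H (nm (idS T) * nm n / (nm k * (nS np R₁ * nS np R₀) * Q))
        (nm (idS T) * nm n / (nS np S * Z)) - G (nm (idS T) * nm n / (nS np S * Z)) *
          K0 K W H (nm (idS T) * nm n / (nm k * (nS np R₁ * nS np R₀) * Q))))| ≤
      2 / sd K * M * C * u ^ (1 / 2 : ℝ) * ((SP K P).powerset.card : ℝ) *
        (Q ^ 2 / (nS np S * nS np T)) * ((nm n)⁻¹ * ∑ R ∈ S.powerset, |ha R (idS T * n)|) := by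
    intro n hn
    obtain ⟨n0, nC, -⟩ := mem_XS.1 hn
    have hn0 := nm_pos n0
    have hb0 := nm_pos b0
    have hbn : idS T * n ≠ ⊥ := by
      have := mul_ne_zero (by simpa using b0 : idS T ≠ 0) (by simpa using n0 : n ≠ 0)
      simpa using this
    obtain ⟨-, -, hs3, -⟩ := h3 K P (Q ^ θ) hy S hS (idS T * n) k hbn (Cp_mul bC nC) hk0
    have e1 : |∑ R₁ ∈ S.powerset, ∑ R₀ ∈ (SP K P).powerset, ha R₁ (idS T * n) * hk P k R₀ *
        (Q / (nS np R₁ * nS np R₀)) *
        (Kx K W G H (nm (idS T) * nm n / (nm k * (nS np R₁ * nS np R₀) * Q))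
        (nm (idS T) * nm n / (nS np S * Z)) - G (nm (idS T) * nm n / (nS np S * Z)) *
          K0 K W H (nm (idS T) * nm n / (nm k * (nS np R₁ * nS np R₀) * Q)))| ≤
        ∑ R₁ ∈ S.powerset, ∑ R₀ ∈ (SP K P).powerset, |ha R₁ (idS T * n)| *
          (C * u ^ (1 / 2 : ℝ) * (nm k * Q ^ 2 / (nm (idS T) * nm n))) := by
      refine le_trans (Finset.abs_sum_le_sum_abs _ _) (Finset.sum_le_sum fun R₁ hR₁ => ?_)
      refine le_trans (Finset.abs_sum_le_sum_abs _ _) (Finset.sum_le_sum fun R₀ hR₀ => ?_)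
      have r1 := nS_pos R₁
      have r0 := nS_pos R₀
      have hrle : nS np R₁ * nS np R₀ ≤ nS np S * nS np (SP K P) :=
        mul_le_mul (Pool.Agent.H19.CV.nS_mono two_le_np (Finset.mem_powerset.1 hR₁))
          (Pool.Agent.H19.CV.nS_mono two_le_np (Finset.mem_powerset.1 hR₀)) r0.le hS0.le
      have hSP := nS_pos (SP K P)
      have hk1 := hC u (nm (idS T) * nm n / (nm k * (nS np R₁ * nS np R₀) * Q))
        (nm (idS T) * nm n / (nS np S * Z)) hu0 hu1 (by positivity) (by positivity) ?_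
      · rw [abs_mul, abs_mul, abs_mul, abs_of_nonneg
          (by positivity : 0 ≤ Q / (nS np R₁ * nS np R₀))]
        calc |ha R₁ (idS T * n)| * |hk P k R₀| * (Q / (nS np R₁ * nS np R₀)) * _ ≤
            |ha R₁ (idS T * n)| * 1 * (Q / (nS np R₁ * nS np R₀)) *
            (C * u ^ (1 / 2 : ℝ) /
              (nm (idS T) * nm n / (nm k * (nS np R₁ * nS np R₀) * Q))) := by
              have := hs3 R₀ hR₀
              gcongr
          _ = _ := by
            field_simp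
      · have e2 : u * (nm (idS T) * nm n / (nm k * (nS np R₁ * nS np R₀) * Q)) =
            nS np (SP K P) * (nm (idS T) * nm n) / (nS np R₁ * nS np R₀ * Z) := by
          rw [hu']
          field_simp
        rw [e2, div_le_div_iff₀ (by positivity) (by positivity)]
        calc nm (idS T) * nm n * (nS np R₁ * nS np R₀ * Z) ≤
            nm (idS T) * nm n * (nS np S * nS np (SP K P) * Z) := by gcongr
          _ = _ := by ring
    have e3 : ∑ R₁ ∈ S.powerset, ∑ R₀ ∈ (SP K P).powerset, |ha R₁ (idS T * n)| *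
          (C * u ^ (1 / 2 : ℝ) * (nm k * Q ^ 2 / (nm (idS T) * nm n))) =
        ((SP K P).powerset.card : ℝ) * (C * u ^ (1 / 2 : ℝ) *
          (nm k * Q ^ 2 / (nm (idS T) * nm n))) * ∑ R ∈ S.powerset, |ha R (idS T * n)| := by
      rw [Finset.mul_sum]
      refine Finset.sum_congr rfl fun R₁ _ => ?_
      rw [Finset.sum_const, nsmul_eq_mul]
      ring
    rw [abs_mul (2 / sd K * (1 / (nS np S * nm k))), abs_mul (G (nm n / Z)),
      abs_of_nonneg (by positivity : 0 ≤ 2 / sd K * (1 / (nS np S * nm k)))]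
    calc 2 / sd K * (1 / (nS np S * nm k)) * (|G (nm n / Z)| * _) ≤
        2 / sd K * (1 / (nS np S * nm k)) * (M * (((SP K P).powerset.card : ℝ) *
          (C * u ^ (1 / 2 : ℝ) * (nm k * Q ^ 2 / (nm (idS T) * nm n))) *
          ∑ R ∈ S.powerset, |ha R (idS T * n)|)) := by
          refine mul_le_mul_of_nonneg_left ?_ (by positivity)
          refine mul_le_mul (hM _) (le_trans e1 e3.le) (abs_nonneg _) (by linarith)
      _ = _ := by
        rw [bnm]
        field_simp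
  refine le_trans (Finset.abs_sum_le_sum_abs _ _) (le_trans (Finset.sum_le_sum hterm) ?_)
  rw [← Finset.mul_sum]
  have hM0 : 0 ≤ M := by linarith
  refine le_trans (mul_le_mul_of_nonneg_left hX (by positivity)) (le_of_eq ?_)
  have hQe : u ^ (1 / 2 : ℝ) * (Q ^ 2 * Q ^ (e / 4)) = U ^ (1 / 2 : ℝ) * Q ^ (2 - e / 4) := by
    rw [hu, Real.mul_rpow hUpos.le (Real.rpow_nonneg hQ0.le _), ← Real.rpow_mul hQ0.le,
      ← Real.rpow_natCast Q 2, ← Real.rpow_add hQ0, mul_assoc, ← Real.rpow_add hQ0]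
    congr 2
    push_cast
    ring
  unfold Er
  calc _ = 2 / sd K * M * C * ((SP K P).powerset.card : ℝ) * CH *
        (u ^ (1 / 2 : ℝ) * (Q ^ 2 * Q ^ (e / 4))) *
        (nS np (S ∩ T) / (nS np S * nS np T)) := by ring
    _ = _ := by
      rw [hQe]
      ring

end

end Pool.Agent.H2.HH
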